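import Pool.Agent.Helper1.RK.StD

/-!
Project RK (MP_de00bc_nt, helper1), module BDQ.
-/

set_option autoImplicit false

namespace Pool.Agent.Helper81.RK
open Pool.Agent.Helper1.RK

theorem pBDQ (h1 : StULT) (h2 : StADM) : StBDQ := by
  intro r N hr
  obtain ⟨P, hP, h⟩ := h1 r N hr
  have hinf : {q : ℚ | ∃ k : ℕ, Odd k ∧ 3 ≤ k ∧ q = (1 + 3 * (k : ℚ) ^ 2) / 4}.Infinite := by
    have hinj : Function.Injective (fun m : ℕ => (1 + 3 * ((2 * m + 3 : ℕ) : ℚ) ^ 2) / 4) := by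
      intro a b hab
      have h3 : ((2 * a + 3 : ℕ) : ℚ) ^ 2 = ((2 * b + 3 : ℕ) : ℚ) ^ 2 := by
        have := hab
        simp only at this
        linarith
      have h4 : (2 * a + 3) ^ 2 = (2 * b + 3) ^ 2 := by exact_mod_cast h3
      have h5 : 2 * a + 3 = 2 * b + 3 := Nat.pow_left_injective (n := 2) (by norm_num) h4
      omega
    refine (Set.infinite_range_of_injective hinj).mono ?_
    rintro _ ⟨m, rfl⟩
    exact ⟨2 * m + 3, ⟨m + 1, by ring⟩, by omega, rfl⟩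
  obtain ⟨lam, hlam, hne⟩ : ∃ lam : Fin r → ℚ,
      (∀ i, ∃ k : ℕ, Odd k ∧ 3 ≤ k ∧ lam i = (1 + 3 * (k : ℚ) ^ 2) / 4) ∧
        MvPolynomial.eval lam P ≠ 0 := by
    by_contra hcon
    push Not at hcon
    apply hP
    apply MvPolynomial.funext_set
      (fun _ => {q : ℚ | ∃ k : ℕ, Odd k ∧ 3 ≤ k ∧ q = (1 + 3 * (k : ℚ) ^ 2) / 4}) (fun _ => hinf)
    intro x hx
    rw [map_zero]
    exact hcon x (fun i => hx i (Set.mem_univ i))
  refine ⟨lam, fun i => ?_, ?_⟩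
  · obtain ⟨k, hk, hk3, hq⟩ := hlam i
    have h3 : (3 : ℚ) ≤ k := by exact_mod_cast hk3
    refine ⟨?_, ?_, ?_⟩
    · rw [hq]; intro h0; nlinarith
    · rw [hq]; intro h0; nlinarith
    · rw [hq]; exact h2 k hk hk3
  · intro u hu hl hsq
    refine h (fun i => ((lam i : ℚ) : ℂ)) ?_ u hu hl hsq
    have h6 : MvPolynomial.aeval (fun i => ((lam i : ℚ) : ℂ)) P
        = algebraMap ℚ ℂ (MvPolynomial.eval lam P) := by
      have h7 := MvPolynomial.aeval_algebraMap_apply (A := ℚ) ℂ lam P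
      rw [MvPolynomial.aeval_eq_eval] at h7
      exact h7
    rw [h6]
    intro h0
    exact hne ((map_eq_zero _).1 h0)

end Pool.Agent.Helper81.RK
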