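import Pool.Agent.Helper1.RK.StE

/-!
Project RK (MP_de00bc_nt, helper1), module ALP: separation of variables.
-/

set_option autoImplicit false

namespace Pool.Agent.Helper81.RK
open Pool.Agent.Helper1.RK

private theorem kmul {K : Type} [Field K] (D : Derivation ℤ K K) {x y : K} (hx : D x = 0)
    (hy : D y = 0) : D (x * y) = 0 := by
  rw [Derivation.leibniz, hx, hy, smul_zero, smul_zero, add_zero]

private theorem kpow {K : Type} [Field K] (D : Derivation ℤ K K) {x : K} (hx : D x = 0) (n : ℕ) :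
    D (x ^ n) = 0 := by
  rw [Derivation.leibniz_pow, hx, smul_zero, smul_zero]

private theorem kcub {K : Type} [Field K] (D : Derivation ℤ K K) {x a b : K} (hx : D x = 0)
    (ha : D a = 0) (hb : D b = 0) : D (x ^ 3 + a * x + b) = 0 := by
  rw [map_add, map_add, kpow D hx, kmul D ha hx, hb, add_zero, add_zero]

private theorem third (i j : Fin 3) : ∃ k : Fin 3, k ≠ i ∧ k ≠ j := by
  revert i j; decide

private theorem all3 (i j k l : Fin 3) (hij : i ≠ j) (hki : k ≠ i) (hkj : k ≠ j) :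
    l = i ∨ l = j ∨ l = k := by
  revert i j k l; decide

theorem pALP (h1 : StPAI) : StALP := by
  intro F K _ _ _ _ I X pd deg lc J rho a b w vf st i j hij z z' hz1 hz2 hz3 hz4 hne
  have pai := h1 F K I X pd deg lc J rho a b w vf st
  obtain ⟨k, hki, hkj⟩ := third i j
  obtain ⟨hΔ, hv⟩ := (pai i j hij).2 z z' hz1 hz2 hz3 hz4 hne
  obtain ⟨hi0, hj0⟩ := hv (rho k) (st.rhoJ k i) (st.rhoJ k j) (st.rho_inj k i hki)
    (st.rho_inj k j hkj)
  have hfi : ∀ l, X (rho l) ^ 3 + a l * X (rho l) + b l ≠ 0 := fun l =>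
    (vf.cub (rho l) (a l) (b l) (st.pda l _ (st.rhoJ l l)) (st.pdb l _ (st.rhoJ l l))).1
  have hr : pd (rho k) (w k) ≠ 0 := by
    intro hr0
    obtain ⟨q, hq⟩ := st.sq i k hki.symm
    set g := (X (rho i) ^ 3 + a i * X (rho i) + b i) * (w i ^ 3 + a i * w i + b i) *
      (w k ^ 3 + a k * w k + b k) with hg
    have hg0 : g ≠ 0 := mul_ne_zero (mul_ne_zero (hfi i) (st.ne i)) (st.ne k)
    have hdg : pd (rho k) g = 0 := by
      rw [hg]
      refine kmul _ (kmul _ (kcub _ ?_ ?_ ?_) (kcub _ ?_ ?_ ?_)) (kcub _ ?_ ?_ ?_)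
      · exact vf.pd_ne _ _ (st.rho_inj k i hki)
      · exact st.pda i _ (st.rhoJ k i)
      · exact st.pdb i _ (st.rhoJ k i)
      · exact hi0
      · exact st.pda i _ (st.rhoJ k i)
      · exact st.pdb i _ (st.rhoJ k i)
      · exact hr0
      · exact st.pda k _ (st.rhoJ k k)
      · exact st.pdb k _ (st.rhoJ k k)
    have hc := vf.cub (rho k) (a k) (b k) (st.pda k _ (st.rhoJ k k)) (st.pdb k _ (st.rhoJ k k))
    have hqq : (X (rho k) ^ 3 + a k * X (rho k) + b k) * g = q * q := by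
      rw [← hq, hg]; ring
    have hq0 : q ≠ 0 := by
      rintro rfl
      rw [mul_zero] at hqq
      exact mul_ne_zero hc.1 hg0 hqq
    have h2 := vf.deg_mul (rho k) _ g hc.1 hg0
    rw [hqq, vf.deg_mul (rho k) q q hq0 hq0, hc.2.1, (vf.deg_pd (rho k) g hg0 hdg).1] at h2
    omega
  have hji : pd (rho j) (w i) = 0 := by
    have h2 := (pai i k hki.symm).1 (rho j) (rho k) (st.rhoJ j i) (st.rhoJ j k)
      (st.rho_inj j i hij.symm) (st.rho_inj j k hkj.symm) (st.rhoJ k i) (st.rhoJ k k)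
    rw [hi0, zero_mul] at h2
    exact (mul_eq_zero.1 h2.symm).resolve_left hr
  have hij' : pd (rho i) (w j) = 0 := by
    have h2 := (pai j k hkj.symm).1 (rho i) (rho k) (st.rhoJ i j) (st.rhoJ i k)
      (st.rho_inj i j hij) (st.rho_inj i k hki.symm) (st.rhoJ k j) (st.rhoJ k k)
    rw [hj0, zero_mul] at h2
    exact (mul_eq_zero.1 h2.symm).resolve_left hr
  rw [hji, zero_mul] at hΔ
  have hii : pd (rho i) (w i) ≠ 0 := left_ne_zero_of_mul hΔ
  have hjj : pd (rho j) (w j) ≠ 0 := right_ne_zero_of_mul hΔ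
  have hvik := ((pai i k hki.symm).2 (rho i) (rho k) (st.rhoJ i i) (st.rhoJ i k) (st.rhoJ k i)
    (st.rhoJ k k) (by rw [hi0, zero_mul]; exact mul_ne_zero hii hr)).2
  have hvjk := ((pai j k hkj.symm).2 (rho j) (rho k) (st.rhoJ j j) (st.rhoJ j k) (st.rhoJ k j)
    (st.rhoJ k k) (by rw [hj0, zero_mul]; exact mul_ne_zero hjj hr)).2
  -- the conclusion from two pairs
  have fin : ∀ l m m' : Fin 3, l ≠ m → l ≠ m' → m ≠ m' →
      (∀ y, y ∉ J l → y ∉ J m → y ≠ rho l → y ≠ rho m → pd y (w l) = 0) →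
      (∀ y, y ∉ J l → y ∉ J m' → y ≠ rho l → y ≠ rho m' → pd y (w l) = 0) →
      ∀ y, y ∉ J l → y ≠ rho l → pd y (w l) = 0 := by
    intro l m m' hlm hlm' hmm' q1 q2 y hy hyr
    by_cases hA : y ∈ J m
    · exact q2 y hy (st.disj m m' hmm' y hA) hyr (fun h => st.rhoJ m' m (h ▸ hA))
    · by_cases hB : y = rho m
      · exact q2 y hy (by rw [hB]; exact st.rhoJ m m') hyr
          (by rw [hB]; exact st.rho_inj m m' hmm')
      · exact q1 y hy hA hyr hB
  intro l
  have hl : l = i ∨ l = j ∨ l = k := all3 i j k l hij hki hkj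
  rcases hl with rfl | rfl | rfl
  · exact fin l j k hij hki.symm hkj.symm (fun y a1 a2 a3 a4 => (hv y a1 a2 a3 a4).1)
      (fun y a1 a2 a3 a4 => (hvik y a1 a2 a3 a4).1)
  · exact fin l i k hij.symm hkj.symm hki.symm (fun y a1 a2 a3 a4 => (hv y a2 a1 a4 a3).2)
      (fun y a1 a2 a3 a4 => (hvjk y a1 a2 a3 a4).1)
  · exact fin l i j hki hkj hij (fun y a1 a2 a3 a4 => (hvik y a2 a1 a4 a3).2)
      (fun y a1 a2 a3 a4 => (hvjk y a2 a1 a4 a3).2)

end Pool.Agent.Helper81.RK
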